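import Pool.Agent.helper37.L5.SpecE

/-! # Project L5 (MP_baa4d7_al), row OUP5: inner powers -/

set_option autoImplicit false

namespace Pool.Agent.L5

open Pool.Agent.helper58.DC Pool.Agent.DI Pool.Agent.GR Pool.Agent.OB Pool.Agent.DR Pool.Agent.FI Pool.Agent.FI3 Pool.Agent.FI4 Pool.Agent.FI4I Pool.Agent.FI4E Pool.Agent.LE

theorem OUP5_comm {G : Type} [Group G] (β : MulAut G) (g : G) : β * MulAut.conj g = MulAut.conj (β g) * β := by
  ext x
  rw [MulAut.mul_apply, MulAut.mul_apply, MulAut.conj_apply, MulAut.conj_apply, map_mul, map_mul, map_inv]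

theorem OUP5_pow {G : Type} [Group G] (α : MulAut G) (g : G) (k : ℕ) : ∃ y : G, (al α g) ^ k = MulAut.conj y * α ^ k := by
  induction k with
  | zero => exact ⟨1, by rw [pow_zero, pow_zero, map_one, mul_one]⟩
  | succ k ih =>
    obtain ⟨y, hy⟩ := ih
    refine ⟨y * (α ^ k) g, ?_⟩
    rw [pow_succ, pow_succ, hy]
    unfold al
    rw [map_mul, mul_assoc (MulAut.conj y) (α ^ k), ← mul_assoc (α ^ k) (MulAut.conj g) α, OUP5_comm, mul_assoc, mul_assoc]

theorem OUP5_am {G : Type} [Group G] (α : MulAut G) (Q : Subgroup G) (h : am α Q = Q) (k : ℕ) : am (α ^ k) Q = Q := by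
  induction k with
  | zero => rw [pow_zero, am_one]
  | succ k ih => rw [pow_succ, am_mul, h, ih]

theorem OUP5_rst {G : Type} [Group G] (N : Subgroup G) (α : MulAut G) (β : MulAut N) (h : Rst N α β) (k : ℕ) (m : N) :
    (((β ^ k) m : N) : G) = (α ^ k) (m : G) := by
  induction k generalizing m with
  | zero => rw [pow_zero, pow_zero]; rfl
  | succ k ih =>
    rw [pow_succ, pow_succ, MulAut.mul_apply, MulAut.mul_apply, ih, h]

/-- Row OUP5. -/
theorem OUP5 : OUP5_stmt := by
  intro G _ _ α n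
  refine ⟨?_, ?_, ?_⟩
  · rintro ⟨x, hx⟩ g
    obtain ⟨y, hy⟩ := OUP5_pow α g n
    exact ⟨y * x, by rw [hy, hx, map_mul]⟩
  · intro y hy C hC
    unfold nrm
    simp only [Subgroup.mem_iInf]
    intro Q hQ
    have h1 := OUP5_am α Q (hC Q hQ) n
    rw [hy] at h1
    rw [Subgroup.mem_normalizer_iff]
    intro m
    constructor
    · intro hm
      rw [← h1]
      exact ⟨m, hm, rfl⟩
    · intro hm
      have h2 : y * m * y⁻¹ ∈ am (MulAut.conj y) Q := by
        rw [h1]
        exact hm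
      rw [mem_am] at h2
      have h3 : (MulAut.conj y)⁻¹ (y * m * y⁻¹) = m := MulAut.inv_apply_self G (MulAut.conj y) m
      rw [h3] at h2
      exact h2
  · intro N β h y hy hα
    ext m
    rw [OUP5_rst N α β h n m, hα]
    rfl

end Pool.Agent.L5
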